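import Pool.Agent.X187.AsyLim2

open scoped ENNReal ComplexOrder
open Filter Topology

namespace Pool.Agent.X187

/-- A sequence of complex numbers is bounded. -/
def BddSeq (s : ℕ → ℂ) : Prop := ∃ C : ℝ, ∀ n, ‖s n‖ ≤ C

/-- A Banach limit: a functional `toFun`, of which only the values at bounded complex sequences
matter, and which is linear, positive, shift-invariant there and takes the value one at the
constant sequence one. -/
structure BanachLimit where
  /-- the underlying functional -/
  toFun : (ℕ → ℂ) → ℂ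
  add : ∀ s t, BddSeq s → BddSeq t → toFun (fun n => s n + t n) = toFun s + toFun t
  smul : ∀ (c : ℂ) (s), BddSeq s → toFun (fun n => c * s n) = c * toFun s
  pos : ∀ s, BddSeq s → (∀ n, 0 ≤ s n) → 0 ≤ toFun s
  shift : ∀ s, BddSeq s → toFun (fun n => s (n + 1)) = toFun s
  one : toFun (fun _ => 1) = 1

variable {H : Type*} [NormedAddCommGroup H] [InnerProductSpace ℂ H]

/-- `T` is power bounded: the powers `T ^ n` have uniformly bounded norms. -/
def PowerBounded (T : H →L[ℂ] H) : Prop := ∃ M : ℝ, ∀ (n : ℕ) (x : H), ‖T^[n] x‖ ≤ M * ‖x‖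

/-- `A` is the `L`-asymptotic limit of `T`: `⟨A x, y⟩ = L (⟨T ^ n x, T ^ n y⟩)_n` for all `x, y`.
(Mathlib's inner product is conjugate linear in its first variable, so the mathematical `⟨u, v⟩`
is `inner ℂ v u`.) -/
def IsAsymptoticLimit (L : BanachLimit) (T A : H →L[ℂ] H) : Prop :=
  ∀ x y : H, inner ℂ y (A x) = L.toFun (fun n => inner ℂ (T^[n] y) (T^[n] x))

/-- The essential spectrum of `A`: the set of all `z` such that `A - z` is not invertible modulo
the compact operators. -/
def essSpectrum (A : H →L[ℂ] H) : Set ℂ :=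
  {z | ¬ ∃ B : H →L[ℂ] H, IsCompactOperator (fun v => B (A v - z • v) - v) ∧
    IsCompactOperator (fun v => A (B v) - z • B v - v)}

namespace AsyLim

lemma bdd_of_lp (s : lp (fun _ : ℕ => ℂ) ∞) : BddSeq (s : ∀ _ : ℕ, ℂ) := by
  have := lp.memℓp s
  rw [memℓp_infty_iff] at this
  obtain ⟨C, hC⟩ := this
  exact ⟨C, fun n => hC ⟨n, rfl⟩⟩

/-- conversion -/
def toLp (L : BanachLimit) : BanachLimitLp where
  toFun :=
    { toFun := fun s => L.toFun s
      map_add' := fun s t => L.add s t (bdd_of_lp s) (bdd_of_lp t)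
      map_smul' := fun c s => L.smul c s (bdd_of_lp s) }
  pos := fun s hs => L.pos s (bdd_of_lp s) hs
  shift := by
    intro s s' h
    have h1 := L.shift s (bdd_of_lp s)
    have h2 : (fun n => s (n + 1)) = (s' : ∀ _ : ℕ, ℂ) := by
      funext n
      exact (h n).symm
    rw [h2] at h1
    exact h1
  one := by
    intro s hs
    have h1 := L.one
    have h3 : (s : ∀ _ : ℕ, ℂ) = fun _ => 1 := by
      funext n
      exact hs n
    change L.toFun s = 1
    rw [h3]
    exact h1

lemma pow_iter (T : H →L[ℂ] H) (n : ℕ) (x : H) : (T ^ n) x = T^[n] x := by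
  induction n with
  | zero => rfl
  | succ n ih =>
    rw [pow_succ', Function.iterate_succ_apply', ← ih]
    rfl

variable [CompleteSpace H]

lemma pb_toLp {T : H →L[ℂ] H} (h : PowerBounded T) : PowerBoundedLp T := by
  obtain ⟨M, hM⟩ := h
  refine ⟨max M 0, fun n => ContinuousLinearMap.opNorm_le_bound _ (le_max_right _ _) fun x => ?_⟩
  rw [pow_iter]
  refine (hM n x).trans ?_
  gcongr
  exact le_max_left _ _

lemma as_toLp {L : BanachLimit} {T A : H →L[ℂ] H} (hT : PowerBounded T)
    (h : IsAsymptoticLimit L T A) : IsAsymptoticLimitLp (toLp L) T A := by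
  obtain ⟨M, hM⟩ := hT
  intro x y
  obtain ⟨s, hs⟩ := mk_seq (f := fun n => inner ℂ (T^[n] y) (T^[n] x)) (C := M * ‖y‖ * (M * ‖x‖))
    (fun n => (norm_inner_le_norm _ _).trans (mul_le_mul (hM n y) (hM n x) (norm_nonneg _)
      ((norm_nonneg _).trans (hM n y))))
  refine ⟨s, ?_, ?_⟩
  · intro n
    rw [hs, pow_iter, pow_iter]
  · rw [h x y]
    change _ = L.toFun s
    congr 1
    funext n
    exact (hs n).symm

lemma ess_toLp {A : H →L[ℂ] H} : essSpectrumLp A = essSpectrum A := by
  ext z
  simp only [essSpectrumLp, essSpectrum]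
  rfl

end AsyLim

end Pool.Agent.X187
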