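import Mathlib

open scoped ENNReal ComplexOrder
open Filter Topology

namespace Pool.Agent.X187

/-- A Banach limit on the space of bounded complex sequences: a positive, shift-invariant linear
functional taking the value one at the constant sequence one. -/
structure BanachLimitLp where
  /-- the underlying linear functional -/
  toFun : lp (fun _ : ℕ => ℂ) ∞ →ₗ[ℂ] ℂ
  pos : ∀ s : lp (fun _ : ℕ => ℂ) ∞, (∀ n, 0 ≤ s n) → 0 ≤ toFun s
  shift : ∀ s s' : lp (fun _ : ℕ => ℂ) ∞, (∀ n, s' n = s (n + 1)) → toFun s' = toFun s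
  one : ∀ s : lp (fun _ : ℕ => ℂ) ∞, (∀ n, s n = 1) → toFun s = 1

variable {H : Type*} [NormedAddCommGroup H] [InnerProductSpace ℂ H] [CompleteSpace H]

/-- `T` is power bounded. -/
def PowerBoundedLp (T : H →L[ℂ] H) : Prop := ∃ M : ℝ, ∀ n : ℕ, ‖T ^ n‖ ≤ M

/-- `A` is the `L`-asymptotic limit of `T`: for all `x, y` the sequence `⟨T ^ n x, T ^ n y⟩` is
bounded and `⟨A x, y⟩ = L (⟨T ^ n x, T ^ n y⟩)_n`.  (Mathlib's inner product is conjugate linear
in its first variable, so the mathematical `⟨u, v⟩` is `inner ℂ v u`.) -/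
def IsAsymptoticLimitLp (L : BanachLimitLp) (T A : H →L[ℂ] H) : Prop :=
  ∀ x y : H, ∃ s : lp (fun _ : ℕ => ℂ) ∞,
    (∀ n, s n = inner ℂ ((T ^ n) y) ((T ^ n) x)) ∧ inner ℂ y (A x) = L.toFun s

/-- The essential spectrum of `A`: the set of all `z` such that `A - z` is not invertible modulo
the compact operators. -/
def essSpectrumLp (A : H →L[ℂ] H) : Set ℂ :=
  {z | ¬ ∃ B : H →L[ℂ] H,
    IsCompactOperator (B * (A - z • (1 : H →L[ℂ] H)) - 1 : H →L[ℂ] H) ∧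
    IsCompactOperator ((A - z • (1 : H →L[ℂ] H)) * B - 1 : H →L[ℂ] H)}

set_option linter.unusedSectionVars false

namespace AsyLim

lemma mk_seq {f : ℕ → ℂ} {C : ℝ} (h : ∀ n, ‖f n‖ ≤ C) :
    ∃ s : lp (fun _ : ℕ => ℂ) ∞, ∀ n, s n = f n := by
  refine ⟨⟨f, ?_⟩, fun n => rfl⟩
  exact memℓp_infty ⟨C, by rintro _ ⟨n, rfl⟩; exact h n⟩

lemma BL_congr (L : BanachLimitLp) {s t : lp (fun _ : ℕ => ℂ) ∞} (h : ∀ n, s n = t n) :
    L.toFun s = L.toFun t := by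
  congr 1
  ext n
  exact h n

/-- real sequences bounded by `C` have limits bounded by `C` -/
lemma BL_le (L : BanachLimitLp) (s : lp (fun _ : ℕ => ℂ) ∞) {r : ℕ → ℝ} {C : ℝ}
    (hs : ∀ n, s n = (r n : ℂ)) (h : ∀ n, r n ≤ C) : (L.toFun s).re ≤ C ∧ (L.toFun s).im = 0 := by
  obtain ⟨o, ho⟩ := mk_seq (f := fun _ => (1 : ℂ)) (C := 1) (by simp)
  have h1 := L.one o (fun n => ho n)
  have h2 := L.pos ((C : ℂ) • o - s) (by
    intro n
    have : (((C : ℂ) • o - s : lp (fun _ : ℕ => ℂ) ∞) : ∀ _ : ℕ, ℂ) n = ((C - r n : ℝ) : ℂ) := by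
      rw [lp.coeFn_sub, lp.coeFn_smul]
      simp [hs, ho]
    rw [this]
    have h3 : (0:ℝ) ≤ C - r n := sub_nonneg.2 (h n)
    exact Complex.zero_le_real.2 h3)
  rw [map_sub, map_smul, h1] at h2
  rw [Complex.le_def] at h2
  simp at h2
  constructor
  · linarith [h2.1]
  · linarith [h2.2]

lemma BL_ge (L : BanachLimitLp) (s : lp (fun _ : ℕ => ℂ) ∞) {r : ℕ → ℝ} {C : ℝ}
    (hs : ∀ n, s n = (r n : ℂ)) (h : ∀ n, C ≤ r n) : C ≤ (L.toFun s).re := by
  have := BL_le L (-s) (r := fun n => - r n) (C := -C) (by intro n; simp [hs]) (by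
    intro n; linarith [h n])
  have h1 := this.1
  rw [map_neg] at h1
  simp at h1
  linarith

lemma BL_const (L : BanachLimitLp) (s : lp (fun _ : ℕ => ℂ) ∞) {c : ℂ} (h : ∀ n, s n = c) :
    L.toFun s = c := by
  obtain ⟨o, ho⟩ := mk_seq (f := fun _ => (1 : ℂ)) (C := 1) (by simp)
  have h1 := L.one o (fun n => ho n)
  have : L.toFun s = L.toFun (c • o) := BL_congr L (by intro n; simp [h, ho])
  rw [this, map_smul, h1]
  simp

variable {L : BanachLimitLp} {T A : H →L[ℂ] H}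

/-- `⟨A T x, T y⟩ = ⟨A x, y⟩`. -/
lemma inner_T (hA : IsAsymptoticLimitLp L T A) (x y : H) :
    inner ℂ (T y) (A (T x)) = inner ℂ y (A x) := by
  obtain ⟨s, hs, h1⟩ := hA x y
  obtain ⟨s', hs', h1'⟩ := hA (T x) (T y)
  rw [h1, h1']
  apply L.shift
  intro n
  rw [hs, hs']
  simp [pow_succ]

lemma inner_Tpow (hA : IsAsymptoticLimitLp L T A) (x y : H) (n : ℕ) :
    inner ℂ ((T ^ n) y) (A ((T ^ n) x)) = inner ℂ y (A x) := by
  induction n generalizing x y with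
  | zero => simp
  | succ n ih =>
    have h1 : (T ^ (n + 1)) y = (T ^ n) (T y) := by simp [pow_succ]
    have h2 : (T ^ (n + 1)) x = (T ^ n) (T x) := by simp [pow_succ]
    rw [h1, h2, ih, inner_T hA]

/-- bound: `⟨A x, x⟩` is the Banach limit of `‖T ^ n x‖ ^ 2`. -/
lemma lower (hA : IsAsymptoticLimitLp L T A) (x : H) {c : ℝ} (h : ∀ n, c ≤ ‖(T ^ n) x‖ ^ 2) :
    c ≤ (inner ℂ x (A x)).re := by
  obtain ⟨s, hs, h1⟩ := hA x x
  rw [h1]
  apply BL_ge L s (r := fun n => ‖(T ^ n) x‖ ^ 2) _ h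
  intro n
  rw [hs, inner_self_eq_norm_sq_to_K]
  simp

lemma upper (hA : IsAsymptoticLimitLp L T A) (x : H) {c : ℝ} (h : ∀ n, ‖(T ^ n) x‖ ^ 2 ≤ c) :
    (inner ℂ x (A x)).re ≤ c := by
  obtain ⟨s, hs, h1⟩ := hA x x
  rw [h1]
  apply (BL_le L s (r := fun n => ‖(T ^ n) x‖ ^ 2) _ h).1
  intro n
  rw [hs, inner_self_eq_norm_sq_to_K]
  simp

lemma im_zero (hA : IsAsymptoticLimitLp L T A) (hT : PowerBoundedLp T) (x : H) :
    (inner ℂ x (A x)).im = 0 := by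
  obtain ⟨M, hM⟩ := hT
  obtain ⟨s, hs, h1⟩ := hA x x
  rw [h1]
  apply (BL_le L s (r := fun n => ‖(T ^ n) x‖ ^ 2) (C := (M * ‖x‖) ^ 2) _ _).2
  · intro n
    rw [hs, inner_self_eq_norm_sq_to_K]
    simp
  · intro n
    have := (T ^ n).le_opNorm x
    have h2 := hM n
    have h3 : ‖(T ^ n) x‖ ≤ M * ‖x‖ := this.trans (by gcongr)
    gcongr

end AsyLim

end Pool.Agent.X187
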