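import Pool.Agent.X187.AsyLim

open scoped ENNReal ComplexOrder InnerProductSpace
open Filter Topology

set_option linter.unusedSectionVars false

namespace Pool.Agent.X187.AsyLim

variable {H : Type*} [NormedAddCommGroup H] [InnerProductSpace ℂ H] [CompleteSpace H]

/-- A compact operator is approximated, up to `δ`, by its composition with a projection onto a
finite-dimensional subspace. -/
lemma approx_proj (K : H →L[ℂ] H) (hK : IsCompactOperator K) {δ : ℝ} (hδ : 0 < δ) :
    ∃ F : Submodule ℂ H, FiniteDimensional ℂ F ∧ ∀ x : H, ∃ w ∈ F, ‖K x - w‖ ≤ δ * ‖x‖ := by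
  obtain ⟨S, hS, hS2⟩ := IsCompactOperator.image_closedBall_subset_compact (f := (K : H →ₗ[ℂ] H))
    hK 1
  obtain ⟨t, -, htf, ht2⟩ := hS.finite_cover_balls hδ
  have : Finite t := htf
  refine ⟨Submodule.span ℂ t, FiniteDimensional.span_of_finite ℂ htf, ?_⟩
  intro x
  rcases eq_or_ne x 0 with rfl | hx
  · exact ⟨0, Submodule.zero_mem _, by simp⟩
  · have hx' : 0 < ‖x‖ := norm_pos_iff.2 hx
    have h1 : K (((‖x‖⁻¹ : ℝ) : ℂ) • x) ∈ S := by
      apply hS2
      refine ⟨((‖x‖⁻¹ : ℝ) : ℂ) • x, ?_, rfl⟩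
      simp [norm_smul, hx'.ne']
    obtain ⟨c, hc, hc2⟩ := Set.mem_iUnion₂.1 (ht2 h1)
    refine ⟨((‖x‖ : ℝ) : ℂ) • c, Submodule.smul_mem _ _ (Submodule.subset_span hc), ?_⟩
    have h2 : K x - ((‖x‖ : ℝ) : ℂ) • c = ((‖x‖ : ℝ) : ℂ) • (K (((‖x‖⁻¹ : ℝ) : ℂ) • x) - c) := by
      rw [smul_sub, map_smul, smul_smul]
      congr 1
      rw [← Complex.ofReal_mul, mul_inv_cancel₀ hx'.ne']
      simp
    rw [h2, norm_smul]
    rw [Metric.mem_ball, dist_eq_norm] at hc2
    simp only [Complex.norm_real, norm_norm]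
    rw [mul_comm]
    gcongr

/-- key averaging estimate -/
lemma sum_small (K : H →L[ℂ] H) (hK : IsCompactOperator K) {δ : ℝ} (hδ : 0 < δ) :
    ∃ C : ℝ, 0 ≤ C ∧ ∀ (S : H →L[ℂ] H) (M : ℝ), ‖S‖ ≤ M → ∀ (N : ℕ) (e : ℕ → H), Orthonormal ℂ e →
      ∑ i ∈ Finset.range N, ‖⟪S (e i), K (S (e i))⟫_ℂ‖ ≤ (N * δ + C * √N) * M ^ 2 := by
  obtain ⟨F, hF, hFK⟩ := approx_proj K hK hδ
  refine ⟨‖K‖ * √(Module.finrank ℂ F), by positivity, ?_⟩
  intro S M hS N e he
  have hM : 0 ≤ M := (norm_nonneg _).trans hS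
  set P := F.starProjection with hP
  set b := stdOrthonormalBasis ℂ F with hb
  have hv : ∀ i, ‖S (e i)‖ ≤ M := fun i => by
    have := S.le_opNorm (e i)
    rw [he.1 i, mul_one] at this
    exact this.trans hS
  -- pointwise estimate
  have h1 : ∀ v : H, ‖⟪v, K v⟫_ℂ‖ ≤ δ * ‖v‖ ^ 2 + ‖K‖ * ‖v‖ * ‖P v‖ := by
    intro v
    obtain ⟨w, hw, hw2⟩ := hFK v
    have h2 : ‖K v - P (K v)‖ ≤ δ * ‖v‖ := by
      refine le_trans ?_ hw2
      have h3 : K v - P (K v) = (K v - w) - P (K v - w) := by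
        rw [map_sub, hP, Submodule.starProjection_eq_self_iff.2 hw]
        abel
      rw [h3]
      have h4 := F.starProjection_add_starProjection_orthogonal (K v - w)
      have h5 : (K v - w) - P (K v - w) = Fᗮ.starProjection (K v - w) := by
        rw [hP]
        exact sub_eq_of_eq_add' h4.symm
      rw [h5]
      exact Fᗮ.norm_starProjection_apply_le _
    have h6 : ⟪v, K v⟫_ℂ = ⟪v, K v - P (K v)⟫_ℂ + ⟪P v, K v⟫_ℂ := by
      rw [inner_sub_right]
      rw [hP, Submodule.inner_starProjection_left_eq_right]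
      ring
    rw [h6]
    refine (norm_add_le _ _).trans (add_le_add ?_ ?_)
    · refine (norm_inner_le_norm _ _).trans ?_
      calc ‖v‖ * ‖K v - P (K v)‖ ≤ ‖v‖ * (δ * ‖v‖) := by gcongr
        _ = _ := by ring
    · refine (norm_inner_le_norm _ _).trans ?_
      calc ‖P v‖ * ‖K v‖ ≤ ‖P v‖ * (‖K‖ * ‖v‖) := by gcongr; exact K.le_opNorm v
        _ = _ := by ring
  -- Bessel
  have h2 : ∑ i ∈ Finset.range N, ‖P (S (e i))‖ ^ 2 ≤ Module.finrank ℂ F * M ^ 2 := by
    have h3 : ∀ v : H, ‖P v‖ ^ 2 = ∑ k, ‖⟪(b k : H), v⟫_ℂ‖ ^ 2 := by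
      intro v
      have h4 : P v = ((F.orthogonalProjection v : F) : H) := rfl
      rw [h4]
      have h5 := b.sum_sq_norm_inner_right (F.orthogonalProjection v)
      have h6 : ‖((F.orthogonalProjection v : F) : H)‖ = ‖F.orthogonalProjection v‖ := rfl
      rw [h6, ← h5]
      refine Finset.sum_congr rfl fun k _ => ?_
      rw [Submodule.inner_orthogonalProjection_eq_of_mem_left]
    simp_rw [h3]
    rw [Finset.sum_comm]
    have h6 : ∀ k, ∑ i ∈ Finset.range N, ‖⟪(b k : H), S (e i)⟫_ℂ‖ ^ 2 ≤ M ^ 2 := by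
      intro k
      have h7 : ∀ i, ‖⟪(b k : H), S (e i)⟫_ℂ‖ = ‖⟪e i, ContinuousLinearMap.adjoint S (b k : H)⟫_ℂ‖ := by
        intro i
        rw [ContinuousLinearMap.adjoint_inner_right, norm_inner_symm]
      simp_rw [h7]
      refine (Orthonormal.sum_inner_products_le _ he).trans ?_
      have h8 := (ContinuousLinearMap.adjoint S).le_opNorm (b k : H)
      have h9 : ‖(b k : H)‖ = 1 := b.norm_eq_one k
      rw [h9, mul_one, LinearIsometryEquiv.norm_map] at h8
      have := h8.trans hS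
      gcongr
    calc _ ≤ ∑ k : Fin (Module.finrank ℂ F), M ^ 2 := Finset.sum_le_sum fun k _ => h6 k
      _ = _ := by simp
  have h3 : ∑ i ∈ Finset.range N, ‖P (S (e i))‖ ≤ √N * (√(Module.finrank ℂ F) * M) := by
    have h5 : (∑ i ∈ Finset.range N, ‖P (S (e i))‖) ^ 2 ≤ N * (Module.finrank ℂ F * M ^ 2) := by
      have := sq_sum_le_card_mul_sum_sq (s := Finset.range N) (f := fun i => ‖P (S (e i))‖)
      rw [Finset.card_range] at this
      refine this.trans ?_
      gcongr
    refine (sq_le_sq₀ (Finset.sum_nonneg fun i _ => norm_nonneg _) (by positivity)).1 ?_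
    rw [mul_pow, mul_pow, Real.sq_sqrt (by positivity), Real.sq_sqrt (by positivity)]
    exact h5
  calc ∑ i ∈ Finset.range N, ‖⟪S (e i), K (S (e i))⟫_ℂ‖
      ≤ ∑ i ∈ Finset.range N, (δ * M ^ 2 + ‖K‖ * M * ‖P (S (e i))‖) := by
        refine Finset.sum_le_sum fun i _ => (h1 _).trans ?_
        have := hv i
        gcongr
    _ = N * δ * M ^ 2 + ‖K‖ * M * ∑ i ∈ Finset.range N, ‖P (S (e i))‖ := by
        rw [Finset.sum_add_distrib, Finset.sum_const, Finset.card_range, ← Finset.mul_sum]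
        simp
        ring
    _ ≤ N * δ * M ^ 2 + ‖K‖ * M * (√N * (√(Module.finrank ℂ F) * M)) := by gcongr
    _ = _ := by ring

/-- If `a` is self-adjoint and `a - z` is invertible modulo compacts for all real `z ≠ 0`,
then `a` is compact. -/
lemma compact_of_ess (a : H →L[ℂ] H) (ha : IsSelfAdjoint a)
    (h : ∀ z : ℝ, z ≠ 0 → ∃ B : H →L[ℂ] H,
      IsCompactOperator (B * (a - (z : ℂ) • (1 : H →L[ℂ] H)) - 1 : H →L[ℂ] H)) :
    IsCompactOperator a := by
  set φ := cfcHom (R := ℝ) ha with hφ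
  have hφc : Continuous φ := cfcHom_continuous ha
  have hclm : ∀ (f g : H →L[ℂ] H), IsCompactOperator g → IsCompactOperator (f * g : H →L[ℂ] H) :=
    fun f g hg => hg.clm_comp f
  have hclm' : ∀ (f g : H →L[ℂ] H), IsCompactOperator f → IsCompactOperator (f * g : H →L[ℂ] H) :=
    fun f g hf => hf.comp_clm g
  let I : Ideal C(spectrum ℝ a, ℝ) :=
    { carrier := {f | IsCompactOperator (φ f)}
      add_mem' := by
        intro f g hf hg
        simp only [Set.mem_setOf_eq, map_add] at *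
        exact hf.add hg
      zero_mem' := by
        simp only [Set.mem_setOf_eq, map_zero]
        exact isCompactOperator_zero
      smul_mem' := by
        intro c f hf
        simp only [Set.mem_setOf_eq, smul_eq_mul, map_mul] at *
        exact hclm _ _ hf }
  have hI : IsClosed (I : Set C(spectrum ℝ a, ℝ)) := by
    have h1 : (I : Set C(spectrum ℝ a, ℝ)) = φ ⁻¹' {g : H →L[ℂ] H | IsCompactOperator g} := rfl
    rw [h1]
    exact isClosed_setOf_isCompactOperator.preimage hφc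
  have hI2 := ContinuousMap.idealOfSet_ofIdeal_isClosed hI
  have hid : (ContinuousMap.restrict (spectrum ℝ a) (ContinuousMap.id ℝ)) ∈ I := by
    rw [← hI2, ContinuousMap.mem_idealOfSet]
    intro x hx
    by_contra hx0
    have hx0 : (x : ℝ) ≠ 0 := hx0
    rw [Set.mem_compl_iff, ContinuousMap.notMem_setOfIdeal] at hx
    obtain ⟨B, hB⟩ := h x hx0
    obtain ⟨ε, hε, hε2⟩ : ∃ ε : ℝ, 0 < ε ∧ ‖B‖ * ε < 1 := by
      refine ⟨1 / (‖B‖ + 1), by positivity, ?_⟩
      rw [mul_one_div, div_lt_one (by positivity)]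
      linarith
    let f : C(spectrum ℝ a, ℝ) := ⟨fun y => min 1 (2 * max 0 (1 - |(y : ℝ) - x| / ε)), by fun_prop⟩
    let g : C(spectrum ℝ a, ℝ) := ⟨fun y => max 0 (1 - 2 * |(y : ℝ) - x| / ε), by fun_prop⟩
    have hfg : f * g = g := by
      ext y
      simp only [ContinuousMap.mul_apply, f, g, ContinuousMap.coe_mk]
      rcases le_total (1 - 2 * |(y : ℝ) - x| / ε) 0 with h1 | h1
      · rw [max_eq_left h1]; simp
      · have h2 : 2 * max 0 (1 - |(y : ℝ) - x| / ε) ≥ 1 := by
          have h3 := le_max_right 0 (1 - |(y : ℝ) - x| / ε)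
          have h4 : 2 * |(y : ℝ) - x| / ε = 2 * (|(y : ℝ) - x| / ε) := by ring
          rw [h4] at h1
          linarith
        rw [min_eq_left h2, one_mul]
    let c : C(spectrum ℝ a, ℝ) := ContinuousMap.restrict (spectrum ℝ a) (ContinuousMap.id ℝ) -
      ContinuousMap.const _ (x : ℝ)
    have hcf : ‖c * f‖ ≤ ε := by
      rw [ContinuousMap.norm_le _ hε.le]
      intro y
      simp only [ContinuousMap.mul_apply, c, f, ContinuousMap.sub_apply, ContinuousMap.restrict_apply,
        ContinuousMap.id_apply, ContinuousMap.const_apply, ContinuousMap.coe_mk, Real.norm_eq_abs]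
      rw [abs_mul]
      rcases le_total (1 - |(y : ℝ) - x| / ε) 0 with h1 | h1
      · rw [max_eq_left h1]; simp [hε.le]
      · have h2 : |(y : ℝ) - x| ≤ ε := by
          have := sub_nonneg.1 h1
          rwa [div_le_one hε] at this
        have h3 : |min 1 (2 * max 0 (1 - |(y : ℝ) - x| / ε))| ≤ 1 := by
          rw [abs_of_nonneg (le_min zero_le_one (by positivity))]
          exact min_le_left _ _
        calc _ ≤ ε * 1 := by gcongr
          _ = ε := mul_one _
    have hφid : φ (ContinuousMap.restrict (spectrum ℝ a) (ContinuousMap.id ℝ)) = a :=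
      cfcHom_id ha
    have hφc2 : φ c = a - ((x : ℝ) : ℂ) • (1 : H →L[ℂ] H) := by
      simp only [c, map_sub, hφid]
      congr 1
      have h1 : ContinuousMap.const (spectrum ℝ a) (x : ℝ) = algebraMap ℝ _ (x : ℝ) := by
        ext; simp
      rw [h1, AlgHomClass.commutes, Algebra.algebraMap_eq_smul_one]
      ext v
      simp
    set r : H →L[ℂ] H := B * φ (c * f) with hr
    have hr1 : ‖r‖ < 1 := by
      refine lt_of_le_of_lt (norm_mul_le _ _) (lt_of_le_of_lt ?_ hε2)
      gcongr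
      have h1 := norm_cfcHom (𝕜 := ℝ) a (c * f) ha
      rw [hφ]
      exact h1.le.trans hcf
    have hg : IsCompactOperator (φ g) := by
      have h1 : (1 - r) * φ g = - ((B * (a - ((x : ℝ) : ℂ) • (1 : H →L[ℂ] H)) - 1) * φ f * φ g) := by
        rw [hr, map_mul, hφc2]
        have h2 : φ f * φ g = φ g := by rw [← map_mul, hfg]
        calc (1 - B * ((a - ((x : ℝ) : ℂ) • (1 : H →L[ℂ] H)) * φ f)) * φ g
            = φ g - B * (a - ((x : ℝ) : ℂ) • (1 : H →L[ℂ] H)) * (φ f * φ g) := by noncomm_ring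
          _ = φ f * φ g - B * (a - ((x : ℝ) : ℂ) • (1 : H →L[ℂ] H)) * (φ f * φ g) := by rw [h2]
          _ = _ := by noncomm_ring
      have h3 : IsCompactOperator ((1 - r) * φ g : H →L[ℂ] H) := by
        rw [h1]
        exact (hclm' _ _ (hclm' _ _ hB)).neg
      have hu : IsUnit (1 - r) := isUnit_one_sub_of_norm_lt_one hr1
      obtain ⟨u, hu⟩ := hu
      have h4 : φ g = (↑u⁻¹ : H →L[ℂ] H) * ((1 - r) * φ g) := by
        rw [← mul_assoc, ← hu]
        simp
      rw [h4]
      exact hclm _ _ h3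
    have := hx (f := g) hg
    simp [g] at this
  have : IsCompactOperator (φ (ContinuousMap.restrict (spectrum ℝ a) (ContinuousMap.id ℝ))) := hid
  rw [hφ, cfcHom_id ha] at this
  exact this

end Pool.Agent.X187.AsyLim
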